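import Mathlib

/-!
# Balanced separating twists: abstract splittings and surface data (definitions)

`Spl P` is an abstract splitting `P = A *_⟨c⟩ B` with a side function `chi`: the walls (edges of
the tree) are the cosets `g ⟨c⟩`, and `chi (g⁻¹ * x)` is the side of `x` with respect to the wall
`g ⟨c⟩` (`0`: the side of `g A`, `1`: the side of `g B`).
-/

set_option autoImplicit false

open Filter

namespace Pool.Agent.Lib.MP_6a1159_al.BS

/-- An abstract splitting `P = A *_⟨c⟩ B` with its side function. -/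
structure Spl (P : Type) [Group P] where
  A : Subgroup P
  B : Subgroup P
  c : P
  chi : P → ℤ
  c_mem_A : c ∈ A
  c_mem_B : c ∈ B
  gen : A ⊔ B = ⊤
  chi_one : chi 1 = 0
  chi_c : ∀ g, chi (c * g) = chi g
  chi_A : ∀ g, ∀ a ∈ A, chi (g * a) = chi g
  chi_B : ∀ g, ∀ b ∈ B, g ∉ Subgroup.zpowers c → g * b ∉ Subgroup.zpowers c →
    chi (g * b) = chi g
  chi_b : ∀ b ∈ B, b ∉ Subgroup.zpowers c → chi b = 1
  c_inf : ∀ k : ℤ, c ^ k = 1 → k = 0
  mal_A : ∀ x ∈ A, ∀ k : ℤ, k ≠ 0 → x⁻¹ * c ^ k * x ∈ Subgroup.zpowers c →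
    x ∈ Subgroup.zpowers c
  mal_B : ∀ x ∈ B, ∀ k : ℤ, k ≠ 0 → x⁻¹ * c ^ k * x ∈ Subgroup.zpowers c →
    x ∈ Subgroup.zpowers c
  ne_A : ∃ a ∈ A, a ∉ Subgroup.zpowers c
  ne_B : ∃ b ∈ B, b ∉ Subgroup.zpowers c

variable {P : Type} [Group P]

namespace Spl

variable (S : Spl P)

/-- No nonzero power of `u` lies in `⟨c⟩`. -/
def NC (u : P) : Prop := ∀ k : ℤ, k ≠ 0 → u ^ k ∉ Subgroup.zpowers S.c

open Classical in
/-- The side (with respect to the wall `⟨c⟩`) of the attracting end of `u`. -/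
noncomputable def E (u : P) : ℤ := if ∀ᶠ k : ℕ in atTop, S.chi (u ^ k) = 1 then 1 else 0

/-- The signed crossing number of the line of `u` with the wall `⟨c⟩`. -/
noncomputable def eps (u : P) : ℤ := S.E u - S.E u⁻¹

end Spl

/-- A splitting together with a group `G` of automorphisms and the properties used below. -/
structure Surf (P : Type) [Group P] (G : Subgroup (MulAut P)) extends Spl P where
  conj_mem : ∀ g : P, MulAut.conj g ∈ G
  sw : MulAut P
  sw_mem : sw ∈ G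
  sw_c : sw c = c⁻¹
  sw_A : ∀ g, g ∈ A ↔ sw g ∈ B
  sw_B : ∀ g, g ∈ B ↔ sw g ∈ A
  antisym : ∀ f ∈ G, toSpl.NC (f c) → toSpl.eps (f⁻¹ c) = - toSpl.eps (f c)
  relEnd : ∀ U ψ : P → ℤ, (∀ s ∈ A, {a | a ∈ A ∧ U (a * s) ≠ U a}.Finite) →
    (∀ a ∈ A, ∀ᶠ k : ℕ in atTop, U (a * c ^ k) = ψ a ∧ U (a * c⁻¹ ^ k) = ψ a) →
    ∀ a ∈ A, ψ a = ψ 1
  homA : ∀ φ : P → ℤ, (∀ a ∈ A, ∀ a' ∈ A, φ (a * a') = φ a + φ a') → φ c = 0
  hopf : ∀ F : MulAut P, (∀ a ∈ A, F a ∈ A) → ∀ a ∈ A, F⁻¹ a ∈ A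

namespace Surf

variable {G : Subgroup (MulAut P)} (S : Surf P G)

/-- The curves: the images of `c` under `G`. -/
def Cur : Set P := {x | ∃ f ∈ G, f S.c = x}

open Classical in
/-- A chosen element of `G` which maps `c` to the curve `x`. -/
noncomputable def rep (x : P) : MulAut P := if h : ∃ f ∈ G, f S.c = x then h.choose else 1

/-- The signed crossing number of the line of `x` with the wall of the curve `z`. -/
noncomputable def ep (x z : P) : ℤ := S.eps ((S.rep z)⁻¹ x)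

/-- The twisting number of `z` and `x` around `l`. -/
noncomputable def tw (l x z : P) : ℤ :=
  - S.ep x l * S.ep z l * ∑ᶠ n : ℤ, S.ep x (l ^ n * z * l ^ (-n))

/-- The positively oriented curves which cross `c`. -/
def Xp : Type := {x : P // x ∈ S.Cur ∧ S.ep x S.c = 1}

end Surf

/-- The conjugates of `x` and of `x⁻¹`. -/
def cls (x : P) : Set P := {y | ∃ g, y = g * x * g⁻¹ ∨ y = g * x⁻¹ * g⁻¹}

open Classical in
/-- The indicator of a proposition. -/
noncomputable def ind (p : Prop) : ℤ := if p then 1 else 0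

/-- A strict linear order with a translation `s` which is cofinal. -/
structure Good {X : Type} (s : Equiv.Perm X) (r : X → X → Prop) : Prop where
  irrefl : ∀ x, ¬ r x x
  trans : ∀ x y z, r x y → r y z → r x z
  tri : ∀ x y, x ≠ y → r x y ∨ r y x
  equiv : ∀ x y, r x y ↔ r (s x) (s y)
  step : ∀ x, r x (s x)
  arch : ∀ x y, ∃ N : ℕ, r x ((s ^ N) y)

namespace Surf

variable {G : Subgroup (MulAut P)} (S : Surf P G)

/-- The classes of curves. -/
def YY : Type := {s : Set P // ∃ x ∈ S.Cur, s = cls x}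

/-- The set of twisting numbers of the classes `X`, `W` around the class `Z`. -/
def Tset (Z X W : Set P) : Set ℤ := {n | ∃ l ∈ Z, ∃ x ∈ X, ∃ w ∈ W, l ∈ S.Cur ∧ x ∈ S.Cur ∧
  w ∈ S.Cur ∧ S.ep x l ≠ 0 ∧ S.ep w l ≠ 0 ∧ n = S.tw l x w}

/-- The twisting number of classes (doubled). -/
noncomputable def tau (Z X W : S.YY) : ℤ := sSup (S.Tset Z.1 X.1 W.1) + sInf (S.Tset Z.1 X.1 W.1)

end Surf

end Pool.Agent.Lib.MP_6a1159_al.BS
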